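import Pool.Agent.Lib.MP_e84edf_an.Core

/-!
# Subnormal block Toeplitz operators with symbol `Φ = B Φ*`

The unit circle is parametrised by `t ∈ ℝ/ℤ`, the coordinate function being `z = exp(2 π i t)`,
which in Mathlib is `fourier 1 t`; `haarAddCircle` is normalised Lebesgue measure.

For every `n ≥ 2` there is a symbol `Φ` with `Φ = B Φ*`, `B(z) = z I`, such that `T_Φ` is subnormal
and even pure (so it is not normal), while `Φ` is not analytic.  For `n = 2` it is
`Φ(z) = [[0, z⁻¹], [z², 1 + z]]`.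
-/

open MeasureTheory AddCircle
open scoped ENNReal InnerProductSpace ComplexConjugate

noncomputable section

namespace Pool.Agent.Results.MP_e84edf_an.PureCounterexample

open Pool.Agent.Lib.MP_e84edf_an

/-- `L²_{ℂ^n}`, the square integrable functions on the circle with values in `ℂ^n`. -/
def L2 (n : ℕ) : Type := Lp (EuclideanSpace ℂ (Fin n)) 2 (haarAddCircle (T := (1 : ℝ)))

instance instNormedL2 (n : ℕ) : NormedAddCommGroup (L2 n) :=
  (inferInstance : NormedAddCommGroup (Lp (EuclideanSpace ℂ (Fin n)) 2 (haarAddCircle (T := (1 : ℝ)))))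

instance instInnerL2 (n : ℕ) : InnerProductSpace ℂ (L2 n) :=
  (inferInstance : InnerProductSpace ℂ (Lp (EuclideanSpace ℂ (Fin n)) 2 (haarAddCircle (T := (1 : ℝ)))))

variable {n : ℕ}

/-- An element of `L²_{ℂ^n}` as an (almost everywhere defined) function. -/
def raw (f : L2 n) : UnitAddCircle →ₘ[haarAddCircle (T := (1 : ℝ))] EuclideanSpace ℂ (Fin n) :=
  Subtype.val f

/-- The values of a function in `L²_{ℂ^n}`. -/
def val (f : L2 n) (t : UnitAddCircle) : EuclideanSpace ℂ (Fin n) := raw f t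

/-- `f` is in the Hardy space: all its Fourier coefficients of negative index vanish. -/
def InHardy (f : L2 n) : Prop := ∀ k : ℤ, k < 0 → fourierCoeff (val f) k = 0

theorem inHardy_zero : InHardy (0 : L2 n) := (Core.H2 n).zero_mem

theorem inHardy_add (f g : L2 n) (hf : InHardy f) (hg : InHardy g) : InHardy (f + g) :=
  (Core.H2 n).add_mem hf hg

theorem inHardy_smul (c : ℂ) (f : L2 n) (hf : InHardy f) : InHardy (c • f) :=
  (Core.H2 n).smul_mem c hf

/-- The Hardy space `H²_{ℂ^n}` as a subspace of `L²_{ℂ^n}`: the functions whose Fourier coefficients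
of negative index all vanish. -/
def hardy (n : ℕ) : Submodule ℂ (L2 n) where
  carrier := {f | InHardy f}
  zero_mem' := inHardy_zero
  add_mem' := fun {f g} hf hg => inHardy_add f g hf hg
  smul_mem' := fun c f hf => inHardy_smul c f hf

theorem hasProjection (n : ℕ) : (hardy n).HasOrthogonalProjection :=
  (inferInstance : (Core.H2 n).HasOrthogonalProjection)

instance instHasProjection (n : ℕ) : (hardy n).HasOrthogonalProjection := hasProjection n

/-- The Hardy space `H²_{ℂ^n}`. -/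
def H2 (n : ℕ) : Type := hardy n

instance instNormedH2 (n : ℕ) : NormedAddCommGroup (H2 n) :=
  (inferInstance : NormedAddCommGroup (hardy n))

instance instInnerH2 (n : ℕ) : InnerProductSpace ℂ (H2 n) :=
  (inferInstance : InnerProductSpace ℂ (hardy n))

theorem complete_H2 (n : ℕ) : CompleteSpace (H2 n) :=
  (inferInstance : CompleteSpace (Core.H2 n))

instance instCompleteH2 (n : ℕ) : CompleteSpace (H2 n) := complete_H2 n

/-- The inclusion of `H²_{ℂ^n}` in `L²_{ℂ^n}`. -/
def incl (f : H2 n) : L2 n := Subtype.val f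

/-- `Φ ∈ L^∞_{M_n}`. -/
def IsLInfty (Φ : UnitAddCircle → Matrix (Fin n) (Fin n) ℂ) : Prop :=
  ∀ i j, MemLp (fun t => Φ t i j) ∞ (haarAddCircle (T := (1 : ℝ)))

/-- `T` is the block Toeplitz operator `T_Φ` with symbol `Φ`: for every `f ∈ H²_{ℂ^n}` the pointwise
product `g = Φ f` is in `L²_{ℂ^n}` and `T f = P g`, `P` being the orthogonal projection of
`L²_{ℂ^n}` onto `H²_{ℂ^n}`. -/
def IsToeplitz (Φ : UnitAddCircle → Matrix (Fin n) (Fin n) ℂ) (T : H2 n →L[ℂ] H2 n) : Prop :=
  ∀ f : H2 n, ∃ g : L2 n,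
    (∀ᵐ t ∂(haarAddCircle (T := (1 : ℝ))), ∀ i, val g t i = ∑ j, Φ t i j * val (incl f) t j) ∧
    incl (T f) = (hardy n).starProjection g

/-- `Φ ∈ H^∞_{M_n}` (so `T_Φ` is analytic): all Fourier coefficients of negative index vanish. -/
def IsAnalytic (Φ : UnitAddCircle → Matrix (Fin n) (Fin n) ℂ) : Prop :=
  ∀ i j, ∀ k : ℤ, k < 0 → fourierCoeff (fun t => Φ t i j) k = 0

/-- `T` is subnormal: there are a Hilbert space `K` containing `H` (through an isometric embedding
`J`) and a normal operator `N` on `K` that restricts to `T` on `H` (which is then invariant). -/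
def IsSubnormal {H : Type} [NormedAddCommGroup H] [InnerProductSpace ℂ H] [CompleteSpace H]
    (T : H →L[ℂ] H) : Prop :=
  ∃ (K : Type) (_ : NormedAddCommGroup K) (_ : InnerProductSpace ℂ K) (_ : CompleteSpace K)
    (J : H →ₗᵢ[ℂ] K) (N : K →L[ℂ] K), IsStarNormal N ∧ ∀ x, N (J x) = J (T x)

/-- `T` is pure: the only closed subspace that reduces `T` and on which `T` is normal is `0`. -/
def IsPure {H : Type} [NormedAddCommGroup H] [InnerProductSpace ℂ H] [CompleteSpace H]
    (T : H →L[ℂ] H) : Prop :=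
  ∀ N : Submodule ℂ H, IsClosed (N : Set H) → (∀ x ∈ N, T x ∈ N) → (∀ x ∈ N, star T x ∈ N) →
    (∀ x ∈ N, star T (T x) = T (star T x)) → N = ⊥

/-- `B` is a finite Blaschke-Potapov product (on the closed unit disc):
`B(z) = V ∏ₖ (bₖ(z) Pₖ + (I - Pₖ))`, `bₖ(z) = (z - αₖ)/(1 - conj(αₖ) z)`, `|αₖ| < 1`, with `V` unitary
and each `Pₖ` a nonzero orthogonal projection. -/
def IsFiniteBlaschkePotapov (B : ℂ → Matrix (Fin n) (Fin n) ℂ) : Prop :=
  ∃ (V : Matrix (Fin n) (Fin n) ℂ) (m : ℕ) (α : Fin m → ℂ) (P : Fin m → Matrix (Fin n) (Fin n) ℂ),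
    V ∈ Matrix.unitaryGroup (Fin n) ℂ ∧ (∀ k, ‖α k‖ < 1) ∧
    (∀ k, (P k).IsHermitian ∧ P k * P k = P k ∧ P k ≠ 0) ∧
    ∀ z : ℂ, ‖z‖ ≤ 1 →
      B z = V * (List.ofFn fun k => ((z - α k) / (1 - conj (α k) * z)) • P k + (1 - P k)).prod

/-! ## The symbol -/

/-- The symbol `Φ(z) = (1 + z)(I - E₀₀) + z² E₁₀ + z⁻¹ E₀₁` as a matrix valued function. -/
def symbol (i0 i1 : Fin n) (t : UnitAddCircle) : Matrix (Fin n) (Fin n) ℂ :=
  fun i j => Core.symb i0 i1 t (Core.e j) i

lemma comp_eq_inner (i : Fin n) (x : EuclideanSpace ℂ (Fin n)) : x i = ⟪Core.e i, x⟫_ℂ := by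
  rw [Core.e, EuclideanSpace.inner_single_left]
  simp

lemma sum_symbol (i0 i1 : Fin n) (t : UnitAddCircle) (x : EuclideanSpace ℂ (Fin n)) (i : Fin n) :
    (Core.symb i0 i1 t x) i = ∑ j, symbol i0 i1 t i j * x j := by
  have hx : x = ∑ j, x j • Core.e j := by
    ext k
    simp [Core.e, Pi.single_apply]
  conv_lhs => rw [hx]
  rw [map_sum]
  have h2 : ∀ (s : Finset (Fin n)) (f : Fin n → EuclideanSpace ℂ (Fin n)),
      (∑ j ∈ s, f j) i = ∑ j ∈ s, f j i := by
    intro s f
    simp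
  rw [h2]
  apply Finset.sum_congr rfl
  intro j _
  rw [map_smul]
  show x j * _ = _
  rw [mul_comm]
  rfl

lemma continuous_symbol (i0 i1 i j : Fin n) : Continuous (fun t => symbol i0 i1 t i j) := by
  have h1 : Continuous (fun t => Core.symb i0 i1 t (Core.e j)) :=
    (Core.symb i0 i1).continuous.clm_apply continuous_const
  exact (EuclideanSpace.proj (𝕜 := ℂ) i).continuous.comp h1

lemma isLInfty_symbol (i0 i1 : Fin n) : IsLInfty (symbol i0 i1) := by
  intro i j
  let F : C(UnitAddCircle, ℂ) := ⟨_, continuous_symbol i0 i1 i j⟩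
  exact memLp_top_of_bound F.continuous.aestronglyMeasurable ‖F‖
    (Filter.Eventually.of_forall fun t => F.norm_coe_le_norm t)

lemma symbol_i0_i1 {i0 i1 : Fin n} (h01 : i0 ≠ i1) (t : UnitAddCircle) :
    symbol i0 i1 t i0 i1 = fourier (-1) t := by
  rw [symbol, Core.symb_apply, comp_eq_inner]
  simp only [inner_add_right, inner_smul_right, inner_sub_right, Core.inner_e_self,
    Core.inner_e_ne h01, Core.inner_e_ne h01.symm]
  ring

lemma symbol_eq (i0 i1 : Fin n) (t : UnitAddCircle) :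
    symbol i0 i1 t = (fourier 1 t : ℂ) • (symbol i0 i1 t).conjTranspose := by
  ext i j
  have h1 := Core.symb_eq i0 i1 t
  have h2 : Core.symb i0 i1 t (Core.e j) i =
      (fourier 1 t : ℂ) * (star (Core.symb i0 i1 t) (Core.e j) i) := by
    conv_lhs => rw [h1]
    rfl
  show Core.symb i0 i1 t (Core.e j) i = (fourier 1 t : ℂ) * star (Core.symb i0 i1 t (Core.e i) j)
  rw [h2, ContinuousLinearMap.star_eq_adjoint, comp_eq_inner i, ContinuousLinearMap.adjoint_inner_right,
    comp_eq_inner j, ← inner_conj_symm]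
  rfl

/-- **Main result.**  For every `n ≥ 2` there is a symbol `Φ ∈ L^∞_{M_n}` with `Φ = B Φ*` almost
everywhere, `B(z) = z I` (a finite Blaschke-Potapov product), such that `T = T_Φ` is subnormal, pure
and not normal, and `Φ` is not analytic. -/
theorem result (n : ℕ) (hn : 2 ≤ n) :
    ∃ (Φ : UnitAddCircle → Matrix (Fin n) (Fin n) ℂ) (T : H2 n →L[ℂ] H2 n),
      IsLInfty Φ ∧ IsToeplitz Φ T ∧ IsSubnormal T ∧ IsPure T ∧ ¬ IsStarNormal T ∧ ¬ IsAnalytic Φ ∧
      ∃ B : ℂ → Matrix (Fin n) (Fin n) ℂ, IsFiniteBlaschkePotapov B ∧ (∀ z, B z = z • 1) ∧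
        ∀ᵐ t ∂(haarAddCircle (T := (1 : ℝ))), Φ t = B (fourier 1 t) * (Φ t).conjTranspose := by
  let i0 : Fin n := ⟨0, by omega⟩
  let i1 : Fin n := ⟨1, by omega⟩
  have h01 : i0 ≠ i1 := by
    intro h
    have := congrArg Fin.val h
    simp [i0, i1] at this
  refine ⟨symbol i0 i1, Core.toeplitz (Core.ofC (Core.symb i0 i1)), isLInfty_symbol i0 i1, ?_,
    Core.subnormal_symb h01, Core.pure_symb h01, Core.not_normal_of_pure _ i0 (Core.pure_symb h01),
    ?_, fun z => z • 1, ?_, fun _ => rfl, ?_⟩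
  · intro f
    refine ⟨Core.mulOp (Core.ofC (Core.symb i0 i1)) (incl f), ?_, rfl⟩
    filter_upwards [Core.mulOp_ofC_ae (Core.symb i0 i1) (incl f)] with t ht i
    show Core.mulOp (Core.ofC (Core.symb i0 i1)) (incl f) t i = _
    rw [ht]
    exact sum_symbol i0 i1 t _ i
  · intro h
    have h1 := h i0 i1 (-1) (by norm_num)
    have h2 : (fun t => symbol i0 i1 t i0 i1) = (fourier (-1) : C(UnitAddCircle, ℂ)) :=
      funext fun t => symbol_i0_i1 h01 t
    rw [h2, fourierCoeff_fourier, Pi.single_eq_same] at h1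
    exact one_ne_zero h1
  · refine ⟨1, 1, fun _ => 0, fun _ => 1, one_mem _, fun _ => by simp, fun _ => ⟨?_, ?_, ?_⟩, ?_⟩
    · exact Matrix.isHermitian_one
    · exact mul_one _
    · intro h
      have h1 := congrFun (congrFun h i0) i0
      simp at h1
    · intro z _
      simp
  · filter_upwards with t
    rw [smul_mul_assoc, one_mul]
    exact symbol_eq i0 i1 t

end Pool.Agent.Results.MP_e84edf_an.PureCounterexample
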